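import Pool.Agent.Y754.BL.AWC

/-!
# The rank conjecture and the Riemann hypothesis from sums over the places with an arbitrary weight

`E : y² = x³ + a x + b` is an elliptic curve over an arbitrary number field `K`, `a, b` integral, whose
`L`-series has an entire continuation.  Goldfeld (1982, `K = ℚ`) proved that the asymptotic formula of
Birch and Swinnerton-Dyer for the product of `#E(k_v) / q_v` over `q_v ≤ X` implies the Riemann
hypothesis for `L(E, s)` and determines the order at `s = 1`.  Here the sharp cut-off is replaced by any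
bounded measurable weight with bounded support.
-/

set_option autoImplicit false

namespace Pool.Agent.Y754Old.ArbitraryWeights

open Filter Topology NumberField IsDedekindDomain MeasureTheory

variable {K : Type} [Field K] [NumberField K]

/-- The finite place `v` does not divide `6 (4 a³ + 27 b²)`. -/
def Good (a b : 𝓞 K) (v : HeightOneSpectrum (𝓞 K)) : Prop :=
  6 * (4 * a ^ 3 + 27 * b ^ 2) ∉ v.asIdeal

/-- `q_v`, the number of elements of the residue field `k_v`. -/
noncomputable def q (v : HeightOneSpectrum (𝓞 K)) : ℕ := Ideal.absNorm v.asIdeal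

/-- `#E(k_v)`, with the point at infinity. -/
noncomputable def numPoints (a b : 𝓞 K) (v : HeightOneSpectrum (𝓞 K)) : ℕ :=
  Nat.card {P : (𝓞 K ⧸ v.asIdeal) × (𝓞 K ⧸ v.asIdeal) // P.2 ^ 2 =
    P.1 ^ 3 + Ideal.Quotient.mk v.asIdeal a * P.1 + Ideal.Quotient.mk v.asIdeal b} + 1

/-- The Euler factor `(1 - a_v q_v^{-s} + q_v^{1-2s})⁻¹`, `a_v = q_v + 1 - #E(k_v)`. -/
noncomputable def factor (a b : 𝓞 K) (s : ℂ) (v : {v : HeightOneSpectrum (𝓞 K) // Good a b v}) : ℂ :=
  (1 - ((q v.1 : ℂ) + 1 - numPoints a b v.1) * (q v.1 : ℂ) ^ (-s) + (q v.1 : ℂ) ^ (1 - 2 * s))⁻¹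

/-- `F` is entire and equal to the Euler product over the good places for `Re s > 3/2`. -/
def IsLSeries (a b : 𝓞 K) (F : ℂ → ℂ) : Prop :=
  Differentiable ℂ F ∧ ∀ s : ℂ, 3 / 2 < s.re → HasProd (factor a b s) (F s)

/-- `w` is a bounded measurable function which is zero to the right of `β > 0`, and `β` is the smallest
number with this property (up to null sets). -/
structure IsWeight (w : ℝ → ℝ) (β : ℝ) : Prop where
  measurable : Measurable w
  bounded : ∃ W : ℝ, ∀ u, |w u| ≤ W
  pos : 0 < β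
  support : ∀ u, β < u → w u = 0
  top : ∀ κ, κ < β → ¬ ∀ᵐ u, u ∈ Set.Ioo κ β → w u = 0

/-- The finite sum `∑ w (log q_v / log X) · log (#E(k_v) / q_v)` over the good places with
`q_v ≤ X^β`. -/
noncomputable def localSum (a b : 𝓞 K) (w : ℝ → ℝ) (β X : ℝ) : ℝ :=
  ∑ᶠ (v : {v : HeightOneSpectrum (𝓞 K) // Good a b v}) (_ : (q v.1 : ℝ) ≤ X ^ β),
    w (Real.log (q v.1) / Real.log X) * Real.log ((numPoints a b v.1 : ℝ) / q v.1)

/-- The curve `y² = x³ + a x + b` over `K`. -/
noncomputable def curve (a b : 𝓞 K) : WeierstrassCurve.Affine K :=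
  WeierstrassCurve.toAffine
    { a₁ := 0, a₂ := 0, a₃ := 0, a₄ := (a : K), a₆ := (b : K) }

/-- The number of the points `P` in `E(K)` with `h(x(P)) ≤ B`, where `h` is the logarithmic height
(relative to `K`); the point at infinity has height `0`. -/
noncomputable def countPoints (a b : 𝓞 K) (B : ℝ) : ℕ :=
  Nat.card {P : (curve a b).Point // Height.logHeight P.xRep ≤ B}

open Classical in
/-- The rank of `E(K)`. -/
noncomputable def rank (a b : 𝓞 K) : ℕ := Module.finrank ℤ (curve a b).Point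

/-- Let `L(E/K, s)` have the entire continuation `F` and let `w` be any weight.  (1) If the local sums
are `O(X^α)`, `α ≥ 0`, then `F` has no zeros with `Re s > 1 + α / β`.  (2) Let `∫_0^β |w(u) - 1| du / u` be
finite.  If the quotient of the local sum by `log log X` tends to `ρ`, then `F` has no zeros with
`Re s > 1`, and `ρ` is the order of `F` at `s = 1`.  (3) If the local sum is equal to the logarithm of the
number of points of height at most `(log X)²` up to `o(log log X)`, then `F` has no zeros with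
`Re s > 1` and its order at `s = 1` is the rank of `E(K)`. -/
theorem result (a b : 𝓞 K) (F : ℂ → ℂ) (hF : IsLSeries a b F) (w : ℝ → ℝ) (β : ℝ)
    (hw : IsWeight w β) :
    (∀ α C : ℝ, 0 ≤ α → (∀ᶠ X : ℝ in atTop, |localSum a b w β X| ≤ C * X ^ α) →
      ∀ s : ℂ, 1 + α / β < s.re → F s ≠ 0) ∧
    (IntegrableOn (fun u : ℝ => |w u - 1| / u) (Set.Ioo 0 β) →
      (∀ ρ : ℝ, Tendsto (fun X : ℝ => localSum a b w β X / Real.log (Real.log X)) atTop (𝓝 ρ) →
        (∀ s : ℂ, 1 < s.re → F s ≠ 0) ∧ ∃ m : ℕ, ρ = m ∧ analyticOrderAt F 1 = m) ∧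
      (4 * a ^ 3 + 27 * b ^ 2 ≠ 0 →
        Tendsto (fun X : ℝ => (localSum a b w β X - Real.log (countPoints a b (Real.log X ^ 2))) /
          Real.log (Real.log X)) atTop (𝓝 0) →
        (∀ s : ℂ, 1 < s.re → F s ≠ 0) ∧ analyticOrderAt F 1 = rank a b)) := by
  have hfac : ∀ s : ℂ, factor a b s =
      fun v : {v : HeightOneSpectrum (𝓞 K) // TH942.ES.GoodV a b v} =>
        TH942.ES.efV a b v.1 s := by
    intro s
    funext v
    unfold factor TH942.ES.efV numPoints q
    push_cast
    rw [add_sub_add_right_eq_sub]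
    rfl
  have hL : Y697.DL.IsL a b F := ⟨hF.1, fun s hs => by rw [← hfac]; exact hF.2 s hs⟩
  have hsum : ∀ X : ℝ, localSum a b w β X = Y754.BL.wsum a b w β X := fun X => rfl
  obtain ⟨W, hW⟩ := hw.bounded
  have hwt : TH942.LS.Wt w W β := ⟨hw.measurable, hW, hw.pos, hw.support⟩
  refine ⟨fun α C hα hS s hs => ?_, fun hd => ⟨fun ρ hρ => ?_, fun hΔ hlim => ?_⟩⟩
  · exact Y754.BL.wzero hL hwt hw.top hα hS hs
  · obtain ⟨h1, m, h2, h3⟩ := Y754.BL.wgrowth hL hwt hw.top hd hρ
    exact ⟨h1, m, h3, h2⟩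
  · exact Y754.BL.wrank hΔ hL hwt hw.top hd hlim

end Pool.Agent.Y754Old.ArbitraryWeights
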